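import Pool.Agent.Helper75.ChQ.Disj

/-!
# Cycles with many disjoint chords: an explicit rate

Every finite graph of minimum degree at least three contains a cycle with `t` pairwise vertex-disjoint chords and of
length at most `exp (exp (A (t + 1)^3))`, with an absolute constant `A`.
-/

set_option autoImplicit false

namespace Pool.Agent.Results.MP_d275fd_co.DisjointChords

open Pool.Agent.Helper75.Ch Pool.Agent.Helper75.ChQ

theorem cycle_length_le {V : Type*} [Fintype V] {G : SimpleGraph V} {v : V} {c : G.Walk v v}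
    (hc : c.IsCycle) : c.length ≤ Fintype.card V := by
  have h1 := hc.support_nodup
  have h2 : c.support.tail.length = c.length := by
    rw [List.length_tail, SimpleGraph.Walk.length_support]
    simp
  rw [← h2]
  exact h1.length_le_card

/-- transport from an induced subgraph -/
theorem chords_map {V : Type*} (G : SimpleGraph V) (X : Finset V)
    {v : {x // x ∈ X}} (c : (G.comap (Subtype.val : {x // x ∈ X} → V)).Walk v v)
    (hc : c.IsCycle) (M : Finset (Sym2 {x // x ∈ X})) (hM : DisjChords c M) :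
    ∃ (v' : V) (c' : G.Walk v' v') (M' : Finset (Sym2 V)), c'.IsCycle ∧ c'.length = c.length ∧
      M'.card = M.card ∧ DisjChords c' M' := by
  classical
  let f : (G.comap (Subtype.val : {x // x ∈ X} → V)) →g G :=
    ⟨Subtype.val, fun {a b} h => h⟩
  have hf : Function.Injective f := Subtype.val_injective
  refine ⟨_, c.map f, M.image (Sym2.map f), (SimpleGraph.Walk.isCycle_map_iff_of_injective hf).mpr hc,
    SimpleGraph.Walk.length_map _ _, Finset.card_image_of_injective _ (Sym2.map.injective hf), ?_, ?_⟩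
  · intro e0 he0
    obtain ⟨e, he, rfl⟩ := Finset.mem_image.mp he0
    obtain ⟨h1, h2, h3⟩ := hM.1 e he
    refine ⟨?_, ?_, ?_⟩
    · induction e using Sym2.ind with
      | h a b => exact h1
    · intro x hx
      rw [Sym2.mem_map] at hx
      obtain ⟨y, hy, rfl⟩ := hx
      rw [SimpleGraph.Walk.support_map]
      exact List.mem_map_of_mem (h2 y hy)
    · rw [SimpleGraph.Walk.edges_map]
      intro h
      obtain ⟨e', he', heq⟩ := List.mem_map.mp h
      exact h3 (Sym2.map.injective hf heq ▸ he')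
  · intro e0 he0 e1 he1 x hx hx'
    obtain ⟨e, he, rfl⟩ := Finset.mem_image.mp he0
    obtain ⟨e', he', rfl⟩ := Finset.mem_image.mp he1
    rw [Sym2.mem_map] at hx hx'
    obtain ⟨y, hy, hyx⟩ := hx
    obtain ⟨y', hy', hyx'⟩ := hx'
    have h : y' = y := hf (hyx'.trans hyx.symm)
    rw [hM.2 e he e' he' y hy (h ▸ hy')]

/-- There is an absolute constant `A` such that every finite nonempty graph with all degrees at least three contains
a cycle `c` and a set `M` of pairwise vertex-disjoint chords of `c` (edges of the graph with both ends on the cycle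
which are not edges of the cycle) with `|c| ≤ exp (exp (A (|M| + 1)^3))`. -/
theorem result : ∃ A : ℝ, 0 < A ∧
    ∀ (V : Type) [Fintype V] [Nonempty V] (G : SimpleGraph V) [DecidableRel G.Adj],
      (∀ v : V, 3 ≤ G.degree v) →
      ∃ (v : V) (c : G.Walk v v) (M : Finset (Sym2 V)), c.IsCycle ∧
        (∀ e ∈ M, e ∈ G.edgeSet ∧ (∀ x ∈ e, x ∈ c.support) ∧ e ∉ c.edges) ∧
        (∀ e ∈ M, ∀ e' ∈ M, ∀ x, x ∈ e → x ∈ e' → e = e') ∧
        (c.length : ℝ) ≤ Real.exp (Real.exp (A * ((M.card : ℝ) + 1) ^ 3)) := by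
  classical
  obtain ⟨A0, hA0, hA⟩ := big_of_large
  set g0 : ℕ := 2 * (576 * 15 ^ 2 + 1) + 30 with hg0
  set A : ℝ := A0 + g0 with hAdef
  have hg0' : (0 : ℝ) < g0 := by rw [hg0]; positivity
  refine ⟨A, by linarith, ?_⟩
  intro V _ _ G _ hdeg
  have hempty : ∀ (v : V) (c : G.Walk v v), DisjChords c ∅ := fun v c => ⟨by simp, by simp⟩
  by_cases hshort : NoShort G g0
  · have hdeg' : ∀ v, 3 ≤ (nbv G v).card := by
      intro v
      have h := hdeg v
      rw [← SimpleGraph.card_neighborFinset_eq_degree] at h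
      refine h.trans (le_of_eq ?_)
      congr 1
      ext y
      rw [SimpleGraph.mem_neighborFinset, mem_nbv]
    obtain ⟨X, hX, hPM⟩ := Pool.Agent.Helper19.Ch.exists_PM G hdeg'
    have hne : Nonempty {x // x ∈ X} := ⟨⟨hX.choose, hX.choose_spec⟩⟩
    have hNS : NoShort (G.comap (Subtype.val : {x // x ∈ X} → V)) g0 := by
      intro v c hc
      obtain ⟨v', c', M', hc', hl, _⟩ := chords_map G X c hc ∅ ⟨by simp, by simp⟩
      rw [← hl]
      exact hshort v' c' hc'
    -- the largest `K` with `exp (exp (A K^3)) ≤ |X|`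
    set n : ℕ := Fintype.card {x // x ∈ X} with hn
    have hfin : ∀ K : ℕ, Real.exp (Real.exp (A * (K : ℝ) ^ 3)) ≤ n → K ≤ n := by
      intro K hK
      rcases Nat.eq_zero_or_pos K with h | h
      · omega
      have h1 : (1 : ℝ) ≤ A := by
        have : (1 : ℝ) ≤ g0 := by rw [hg0]; norm_num
        linarith
      have h2 : (1 : ℝ) ≤ K := by exact_mod_cast h
      have h3 : (K : ℝ) ≤ (K : ℝ) ^ 3 := le_self_pow₀ h2 (by norm_num)
      have h4 := Real.add_one_le_exp (A * (K : ℝ) ^ 3)
      have h5 := Real.add_one_le_exp (Real.exp (A * (K : ℝ) ^ 3))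
      have h6 : (K : ℝ) ≤ A * (K : ℝ) ^ 3 := by nlinarith
      have h7 : (K : ℝ) ≤ n := by linarith
      exact_mod_cast h7
    let Q : ℕ → Prop := fun K => Real.exp (Real.exp (A * (K : ℝ) ^ 3)) ≤ n
    let K : ℕ := Nat.findGreatest Q n
    have hlast : (n : ℝ) < Real.exp (Real.exp (A * ((K : ℝ) + 1) ^ 3)) := by
      by_contra hcon
      push Not at hcon
      have h1 : Q (K + 1) := by
        show Real.exp (Real.exp (A * ((K + 1 : ℕ) : ℝ) ^ 3)) ≤ n
        push_cast
        exact hcon
      have h2 := Nat.le_findGreatest (P := Q) (hfin _ h1) h1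
      exact absurd h2 (by show ¬ (K + 1 ≤ K); omega)
    obtain ⟨v, c, hc, M, hMK, hM⟩ : ∃ (v : {x // x ∈ X})
        (c : (G.comap (Subtype.val : {x // x ∈ X} → V)).Walk v v), c.IsCycle ∧
        ∃ M : Finset (Sym2 {x // x ∈ X}), M.card = K ∧ DisjChords c M := by
      rcases Nat.eq_zero_or_pos K with h | h
      · obtain ⟨v, c, hc⟩ := Pool.Agent.Helper19.Ch.pm_cycle _ hPM hne
        exact ⟨v, c, hc, ∅, by rw [h, Finset.card_empty], by simp, by simp⟩
      · have h1 : Q K := Nat.findGreatest_of_ne_zero (P := Q) (n := n) (m := K) rfl h.ne'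
        have h2 : Real.exp (Real.exp (A0 * (K : ℝ) ^ 3)) ≤ n :=
          (expexp_mono (by linarith)).trans h1
        exact main75 K h _ hPM (hA K h n h2) hNS
    obtain ⟨v', c', M', hc', hl, hMc, hM'⟩ := chords_map G X c hc M hM
    refine ⟨v', c', M', hc', hM'.1, hM'.2, ?_⟩
    rw [hl, hMc, hMK]
    refine le_trans ?_ hlast.le
    exact_mod_cast cycle_length_le hc
  · simp only [NoShort, not_forall, not_le] at hshort
    obtain ⟨v, c, hc, hlt⟩ := hshort
    refine ⟨v, c, ∅, hc, (hempty v c).1, (hempty v c).2, ?_⟩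
    have h1 : (c.length : ℝ) ≤ g0 := by exact_mod_cast hlt.le
    have h2 : (g0 : ℝ) ≤ A := by linarith
    have h3 := Real.add_one_le_exp (A * (((∅ : Finset (Sym2 V)).card : ℝ) + 1) ^ 3)
    have h4 := Real.add_one_le_exp (Real.exp (A * (((∅ : Finset (Sym2 V)).card : ℝ) + 1) ^ 3))
    have h5 : A * (((∅ : Finset (Sym2 V)).card : ℝ) + 1) ^ 3 = A := by simp
    linarith

end Pool.Agent.Results.MP_d275fd_co.DisjointChords
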